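import Mathlib

/-!
# The generalized non-coprime graph of a group relative to a subgroup
-/

namespace Q20.NonCoprime

/-- The generalized non-coprime graph of `G` relative to `H`: the vertices are the
non-identity elements of `G`, and distinct `a`, `b` are adjacent iff the orders of `a` and `b`
are not coprime and at least one of `a`, `b` lies in `H`. -/
def genNonCoprimeGraph (G : Type*) [Group G] (H : Subgroup G) :
    SimpleGraph {g : G // g ≠ 1} where
  Adj a b := a ≠ b ∧ Nat.gcd (orderOf a.1) (orderOf b.1) ≠ 1 ∧ (a.1 ∈ H ∨ b.1 ∈ H)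
  symm := ⟨fun _ _ h => ⟨h.1.symm, by rw [Nat.gcd_comm]; exact h.2.1, h.2.2.symm⟩⟩
  loopless := ⟨fun _ h => h.1 rfl⟩

end Q20.NonCoprime
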