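import Pool.Agent.Q20.NonCoprime.Defs

namespace Q20.NonCoprime

variable {G : Type*} [Group G] [Finite G] {H : Subgroup G}

lemma orderOf_eq_two_of_inv_eq {x : G} (hx : x ≠ 1) (h : x⁻¹ = x) : orderOf x = 2 := by
  apply orderOf_eq_prime _ hx
  rw [pow_two]
  nth_rewrite 1 [← h]
  simp

lemma orderOf_conj' (g x : G) : orderOf (g * x * g⁻¹) = orderOf x :=
  orderOf_injective (MulAut.conj g).toMonoidHom (MulAut.conj g).injective x

lemma order_ne_one {x : G} (hx : x ≠ 1) : orderOf x ≠ 1 := by
  rwa [Ne, orderOf_eq_one_iff]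

lemma inv_ne_self_of_odd {y : G} (hy : y ≠ 1) (h : ¬ 2 ∣ orderOf y) : y⁻¹ ≠ y := by
  intro h'
  exact h (by rw [orderOf_eq_two_of_inv_eq hy h'])

lemma noTwin (x y : {g : G // g ≠ 1}) (hx : x.1 ∈ H) (hxy : x ≠ y)
    (hadj : ¬ (genNonCoprimeGraph G H).Adj x y)
    (htw : ∀ z, (genNonCoprimeGraph G H).Adj x z ↔ (genNonCoprimeGraph G H).Adj y z) :
    False := by
  by_cases hinv : x.1⁻¹ = x.1
  · have ho : orderOf x.1 = 2 := orderOf_eq_two_of_inv_eq x.2 hinv
    have hodd : ¬ 2 ∣ orderOf y.1 := by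
      intro h
      apply hadj
      refine ⟨hxy, ?_, Or.inl hx⟩
      rw [ho]
      rw [Nat.gcd_eq_left h]
      norm_num
    have hcen : ∀ g : G, g * x.1 * g⁻¹ = x.1 := by
      intro g
      by_contra hne
      have hz1 : g * x.1 * g⁻¹ ≠ 1 := by
        intro h
        exact x.2 (by simpa using h)
      have h1 : (genNonCoprimeGraph G H).Adj x ⟨g * x.1 * g⁻¹, hz1⟩ := by
        refine ⟨?_, ?_, Or.inl hx⟩
        · intro h
          exact hne (congrArg Subtype.val h).symm
        · simp only [orderOf_conj', ho]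
          norm_num
      have h2 := (htw _).1 h1
      have h3 := h2.2.1
      simp only [orderOf_conj', ho] at h3
      apply hodd
      have h4 : Nat.gcd (orderOf y.1) 2 ∣ 2 := Nat.gcd_dvd_right _ _
      rcases (Nat.dvd_prime Nat.prime_two).1 h4 with h5 | h5
      · exact absurd h5 h3
      · rw [← h5]; exact Nat.gcd_dvd_left _ _
    have hcomm : Commute x.1 y.1 := by
      have := hcen y.1
      rw [mul_inv_eq_iff_eq_mul] at this
      exact this.symm
    have hcop : Nat.Coprime (orderOf x.1) (orderOf y.1) := by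
      rw [ho]
      exact (Nat.Prime.coprime_iff_not_dvd Nat.prime_two).2 hodd
    have hoxy : orderOf (x.1 * y.1) = 2 * orderOf y.1 := by
      rw [hcomm.orderOf_mul_eq_mul_orderOf_of_coprime hcop, ho]
    have hxy1 : x.1 * y.1 ≠ 1 := by
      intro h
      rw [h, orderOf_one] at hoxy
      omega
    have h1 : (genNonCoprimeGraph G H).Adj x ⟨x.1 * y.1, hxy1⟩ := by
      refine ⟨?_, ?_, Or.inl hx⟩
      · intro h
        have := congrArg Subtype.val h
        simp only at this
        exact y.2 (by simpa using this)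
      · simp only [hoxy, ho]
        rw [Nat.gcd_mul_right_right]
        norm_num
    have h2 := (htw _).1 h1
    have hyH : y.1 ∈ H := by
      rcases h2.2.2 with h | h
      · exact h
      · exact (Subgroup.mul_mem_cancel_left H hx).1 h
    have hy' : y.1⁻¹ ≠ y.1 := inv_ne_self_of_odd y.2 hodd
    have h3 : (genNonCoprimeGraph G H).Adj y ⟨y.1⁻¹, inv_ne_one.2 y.2⟩ := by
      refine ⟨?_, ?_, Or.inl hyH⟩
      · intro h
        exact hy' (congrArg Subtype.val h).symm
      · simp only [orderOf_inv, Nat.gcd_self]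
        exact order_ne_one y.2
    have h4 := (htw _).2 h3
    apply h4.2.1
    simp only [orderOf_inv]
    exact hcop
  · have h1 : (genNonCoprimeGraph G H).Adj x ⟨x.1⁻¹, inv_ne_one.2 x.2⟩ := by
      refine ⟨?_, ?_, Or.inl hx⟩
      · intro h
        exact hinv (congrArg Subtype.val h).symm
      · simp only [orderOf_inv, Nat.gcd_self]
        exact order_ne_one x.2
    have h2 := (htw _).1 h1
    apply hadj
    refine ⟨hxy, ?_, Or.inl hx⟩
    have := h2.2.1
    simp only [orderOf_inv] at this
    rwa [Nat.gcd_comm]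

lemma exists_adj (x y : {g : G // g ≠ 1}) (hx : x.1 ∈ H) (hxy : x ≠ y) :
    ∃ z, (genNonCoprimeGraph G H).Adj x z := by
  by_contra hno
  push Not at hno
  apply noTwin x y hx hxy (hno y)
  intro z
  refine ⟨fun h => absurd h (hno z), fun h => ?_⟩
  -- `y` adjacent to `z`, while `x` is isolated: impossible
  exfalso
  by_cases hinv : x.1⁻¹ = x.1
  · have ho : orderOf x.1 = 2 := orderOf_eq_two_of_inv_eq x.2 hinv
    have hodd : ∀ w : {g : G // g ≠ 1}, w ≠ x → ¬ 2 ∣ orderOf w.1 := by
      intro w hw h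
      apply hno w
      refine ⟨hw.symm, ?_, Or.inl hx⟩
      rw [ho, Nat.gcd_eq_left h]
      norm_num
    have hcen : ∀ g : G, g * x.1 * g⁻¹ = x.1 := by
      intro g
      by_contra hne
      have hz1 : g * x.1 * g⁻¹ ≠ 1 := by
        intro h
        exact x.2 (by simpa using h)
      apply hodd ⟨g * x.1 * g⁻¹, hz1⟩
      · intro h
        exact hne (congrArg Subtype.val h)
      · simp only [orderOf_conj', ho]
        exact dvd_rfl
    have hcomm : Commute x.1 y.1 := by
      have := hcen y.1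
      rw [mul_inv_eq_iff_eq_mul] at this
      exact this.symm
    have hcop : Nat.Coprime (orderOf x.1) (orderOf y.1) := by
      rw [ho]
      exact (Nat.Prime.coprime_iff_not_dvd Nat.prime_two).2 (hodd y hxy.symm)
    have hoxy : orderOf (x.1 * y.1) = 2 * orderOf y.1 := by
      rw [hcomm.orderOf_mul_eq_mul_orderOf_of_coprime hcop, ho]
    have hxy1 : x.1 * y.1 ≠ 1 := by
      intro h
      rw [h, orderOf_one] at hoxy
      omega
    apply hodd ⟨x.1 * y.1, hxy1⟩
    · intro h
      have := congrArg Subtype.val h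
      simp only at this
      exact y.2 (by simpa using this)
    · simp only [hoxy]
      exact Dvd.intro _ rfl
  · apply hno ⟨x.1⁻¹, inv_ne_one.2 x.2⟩
    refine ⟨?_, ?_, Or.inl hx⟩
    · intro h
      exact hinv (congrArg Subtype.val h).symm
    · simp only [orderOf_inv, Nat.gcd_self]
      exact order_ne_one x.2

variable {G' : Type*} [Group G'] [Finite G'] {H' : Subgroup G'}

lemma transfer (φ : genNonCoprimeGraph G H ≃g genNonCoprimeGraph G' H')
    (x : {g : G // g ≠ 1}) (hx : x.1 ∈ H) (hb : (φ x).1 ∉ H') (c : {g : G' // g ≠ 1})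
    (hc : c.1 ∉ H') (hcb : c ≠ φ x) (ho : orderOf c.1 = orderOf (φ x).1) : False := by
  apply noTwin x (φ.symm c) hx
  · intro h
    apply hcb
    rw [h]; simp
  · intro h
    have h2 := φ.map_adj_iff.2 h
    rw [RelIso.apply_symm_apply] at h2
    rcases h2.2.2 with h3 | h3
    · exact hb h3
    · exact hc h3
  · intro z
    rw [← φ.map_adj_iff, ← φ.map_adj_iff (v := φ.symm c), RelIso.apply_symm_apply]
    constructor
    · rintro ⟨h1, h2, h3⟩
      have hz : (φ z).1 ∈ H' := by
        rcases h3 with h3 | h3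
        · exact absurd h3 hb
        · exact h3
      refine ⟨?_, by rw [ho]; exact h2, Or.inr hz⟩
      rintro rfl
      exact hc hz
    · rintro ⟨h1, h2, h3⟩
      have hz : (φ z).1 ∈ H' := by
        rcases h3 with h3 | h3
        · exact absurd h3 hc
        · exact h3
      refine ⟨?_, by rw [← ho]; exact h2, Or.inr hz⟩
      intro h
      rw [← h] at hz
      exact hb hz

lemma maps_to (hH' : H' ≠ ⊥) (φ : genNonCoprimeGraph G H ≃g genNonCoprimeGraph G' H')
    (x : {g : G // g ≠ 1}) (hx : x.1 ∈ H) : (φ x).1 ∈ H' := by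
  by_contra hb
  obtain ⟨h', hh', hh1⟩ : ∃ a : G', a ∈ H' ∧ a ≠ 1 := by
    obtain ⟨a, ha⟩ := Subgroup.ne_bot_iff_exists_ne_one.1 hH'
    exact ⟨a.1, a.2, fun h => ha (Subtype.ext h)⟩
  have hne : x ≠ φ.symm ⟨h', hh1⟩ := by
    intro h
    rw [h] at hb
    simp only [RelIso.apply_symm_apply] at hb
    exact hb hh'
  obtain ⟨z, hz⟩ := exists_adj x _ hx hne
  have hz' := φ.map_adj_iff.2 hz
  have hzH : (φ z).1 ∈ H' := by
    rcases hz'.2.2 with h | h
    · exact absurd h hb
    · exact h
  by_cases hinv : (φ x).1⁻¹ = (φ x).1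
  · have ho : orderOf (φ x).1 = 2 := orderOf_eq_two_of_inv_eq (φ x).2 hinv
    have h2 : 2 ∣ orderOf (φ z).1 := by
      have h3 := hz'.2.1
      rw [ho] at h3
      rcases (Nat.dvd_prime Nat.prime_two).1 (Nat.gcd_dvd_left 2 (orderOf (φ z).1)) with h | h
      · exact absurd h h3
      · rw [← h]; exact Nat.gcd_dvd_right _ _
    obtain ⟨k, hk⟩ := h2
    have hk0 : k ≠ 0 := by
      rintro rfl
      have := orderOf_pos (φ z).1
      omega
    set t : G' := (φ z).1 ^ k with ht
    have hto : orderOf t = 2 := by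
      rw [ht, orderOf_pow_of_dvd hk0 (by rw [hk]; exact Dvd.intro_left 2 rfl), hk]
      exact Nat.mul_div_cancel _ (Nat.pos_of_ne_zero hk0)
    have htH : t ∈ H' := Subgroup.pow_mem _ hzH _
    have ht1 : t ≠ 1 := by
      intro h; rw [h, orderOf_one] at hto; omega
    by_cases hconj : t * (φ x).1 * t⁻¹ = (φ x).1
    · -- then `t * φ x` is another involution outside `H'`
      have hcomm : Commute t (φ x).1 := by
        rw [mul_inv_eq_iff_eq_mul] at hconj
        exact hconj
      have htb : t * (φ x).1 ∉ H' := fun h => hb ((Subgroup.mul_mem_cancel_left H' htH).1 h)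
      have htb1 : t * (φ x).1 ≠ 1 := fun h => htb (by rw [h]; exact Subgroup.one_mem _)
      have htbo : orderOf (t * (φ x).1) = 2 := by
        apply orderOf_eq_prime _ htb1
        rw [hcomm.mul_pow]
        have e1 : t ^ 2 = 1 := by rw [← hto]; exact pow_orderOf_eq_one t
        have e2 : (φ x).1 ^ 2 = 1 := by
          have := pow_orderOf_eq_one (φ x).1
          rwa [ho] at this
        rw [e1, e2, one_mul]
      refine transfer φ x hx hb ⟨t * (φ x).1, htb1⟩ htb ?_ ?_
      · intro h
        have := congrArg Subtype.val h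
        simp only at this
        exact ht1 (by simpa using this)
      · simp only [htbo, ho]
    · have h1 : t * (φ x).1 * t⁻¹ ∉ H' := by
        intro h
        apply hb
        rw [Subgroup.mul_mem_cancel_right H' (Subgroup.inv_mem _ htH)] at h
        exact (Subgroup.mul_mem_cancel_left H' htH).1 h
      have h11 : t * (φ x).1 * t⁻¹ ≠ 1 := fun h => h1 (by rw [h]; exact Subgroup.one_mem _)
      refine transfer φ x hx hb ⟨t * (φ x).1 * t⁻¹, h11⟩ h1 ?_ (orderOf_conj' _ _)
      intro h
      exact hconj (congrArg Subtype.val h)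
  · refine transfer φ x hx hb ⟨(φ x).1⁻¹, inv_ne_one.2 (φ x).2⟩
      (fun h => hb ((Subgroup.inv_mem_iff H').1 h)) ?_ (orderOf_inv _)
    intro h
    exact hinv (congrArg Subtype.val h)

theorem main (H : Subgroup G) (H' : Subgroup G') (hH : H ≠ ⊥) (hH' : H' ≠ ⊥)
    (φ : genNonCoprimeGraph G H ≃g genNonCoprimeGraph G' H') :
    φ '' {x | x.1 ∈ H} = {y | y.1 ∈ H'} := by
  ext y
  constructor
  · rintro ⟨x, hx, rfl⟩
    exact maps_to hH' φ x hx
  · intro hy
    refine ⟨φ.symm y, ?_, by simp⟩
    exact maps_to hH φ.symm y hy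

end Q20.NonCoprime
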